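import Mathlib

/-!
# Block NAS (AND2B): weighted Poincare inequalities on dyadic cubes (helper17)

`cu d n` is the cube `[0, n)^d`, `gr d n h` the sum of the squares of the differences along the bonds
INSIDE the cube. `sob`: `∑ a_x (h_x - mean)² ≤ C (4^J θ + 2^(-(d-2)J) T) gr` if `0 ≤ a ≤ θ` and
`∑ a ≤ T`; `hls`: `(∑ φ_x (h_x - mean))² ≤ C (4^J ∑ φ² + 2^(-(d-2)J) (∑ |φ|)²) gr`, for every `J`.
-/

set_option autoImplicit false

open scoped BigOperators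

noncomputable section

namespace Pool.Agent.NAS

variable {d : ℕ}

/-- the cube `[0, n)^d` -/
def cu (d n : ℕ) : Finset (Fin d → ℕ) := Fintype.piFinset fun _ => Finset.range n

theorem mem_cu {n : ℕ} {x : Fin d → ℕ} : x ∈ cu d n ↔ ∀ i, x i < n := by
  simp [cu]

theorem card_cu (n : ℕ) : (cu d n).card = n ^ d := by
  simp [cu]

/-- coordinatewise division -/
def dv (x : Fin d → ℕ) (n : ℕ) : Fin d → ℕ := fun i => x i / n

/-- partition into smaller cubes -/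
theorem sum_cu_mul {a : ℕ} (b : ℕ) (ha : 0 < a) (g : (Fin d → ℕ) → ℝ) :
    ∑ x ∈ cu d (a * b), g x = ∑ u ∈ cu d b, ∑ x ∈ cu d a, g (a • u + x) := by
  rw [← Finset.sum_product']
  symm
  refine Finset.sum_nbij' (fun p => a • p.1 + p.2) (fun y => (dv y a, fun i => y i % a))
    ?_ ?_ ?_ ?_ ?_
  · rintro ⟨u, x⟩ h
    rw [Finset.mem_product, mem_cu, mem_cu] at h
    rw [mem_cu]
    intro i
    have h1 : u i + 1 ≤ b := h.1 i
    have h2 : x i < a := h.2 i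
    have h3 : a * (u i + 1) ≤ a * b := Nat.mul_le_mul_left a h1
    show a • u i + x i < a * b
    rw [smul_eq_mul]
    rw [mul_add, mul_one] at h3
    omega
  · intro y hy
    rw [mem_cu] at hy
    rw [Finset.mem_product, mem_cu, mem_cu]
    exact ⟨fun i => Nat.div_lt_of_lt_mul (hy i), fun i => Nat.mod_lt _ ha⟩
  · rintro ⟨u, x⟩ h
    rw [Finset.mem_product, mem_cu, mem_cu] at h
    have h2 : ∀ i, x i < a := h.2
    apply Prod.ext
    · funext i
      show (a • u i + x i) / a = u i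
      rw [smul_eq_mul, Nat.mul_add_div ha, Nat.div_eq_of_lt (h2 i), add_zero]
    · funext i
      show (a • u i + x i) % a = x i
      rw [smul_eq_mul, Nat.mul_add_mod, Nat.mod_eq_of_lt (h2 i)]
  · intro y _
    funext i
    show a • (y i / a) + y i % a = y i
    rw [smul_eq_mul]
    exact Nat.div_add_mod _ _
  · intro p _
    rfl

theorem dv_add {a : ℕ} {u x : Fin d → ℕ} (hx : x ∈ cu d a) : dv (a • u + x) a = u := by
  rw [mem_cu] at hx
  funext i
  show (a • u i + x i) / a = u i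
  have h := hx i
  rw [smul_eq_mul, Nat.mul_add_div (by omega), Nat.div_eq_of_lt h, add_zero]

/-- the energy of the bonds inside the cube in the direction `i` -/
def gi (d n : ℕ) (i : Fin d) (h : (Fin d → ℕ) → ℝ) : ℝ :=
  ∑ x ∈ cu d n, if x i + 1 < n then (h (x + Pi.single i 1) - h x) ^ 2 else 0

/-- the energy of the bonds inside the cube -/
def gr (d n : ℕ) (h : (Fin d → ℕ) → ℝ) : ℝ := ∑ i, gi d n i h

/-- the mean over the cube `2^j u + [0, 2^j)^d` -/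
def av (j : ℕ) (h : (Fin d → ℕ) → ℝ) (u : Fin d → ℕ) : ℝ :=
  (∑ x ∈ cu d (2 ^ j), h (2 ^ j • u + x)) / ((2 : ℝ) ^ j) ^ d

theorem gi_nonneg (n : ℕ) (i : Fin d) (h : (Fin d → ℕ) → ℝ) : 0 ≤ gi d n i h := by
  unfold gi
  refine Finset.sum_nonneg fun x _ => ?_
  split_ifs
  · positivity
  · exact le_rfl

theorem gr_nonneg (n : ℕ) (h : (Fin d → ℕ) → ℝ) : 0 ≤ gr d n h :=
  Finset.sum_nonneg fun i _ => gi_nonneg n i h

theorem pc (j : ℕ) : ((cu d (2 ^ j)).card : ℝ) = ((2 : ℝ) ^ j) ^ d := by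
  rw [card_cu]
  push_cast
  rfl

theorem sq_sum_le {ι : Type} (s : Finset ι) (f : ι → ℝ) :
    (∑ i ∈ s, f i) ^ 2 ≤ (s.card : ℝ) * ∑ i ∈ s, f i ^ 2 := sq_sum_le_card_mul_sum_sq

theorem sum_sq_le {ι : Type} (s : Finset ι) (f : ι → ℝ) (hf : ∀ i ∈ s, 0 ≤ f i) :
    ∑ i ∈ s, f i ^ 2 ≤ (∑ i ∈ s, f i) ^ 2 := by
  rw [sq (∑ i ∈ s, f i), Finset.sum_mul]
  refine Finset.sum_le_sum fun i hi => ?_
  rw [sq]
  exact mul_le_mul_of_nonneg_left (Finset.single_le_sum hf hi) (hf i hi)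

/-- the difference along a path of length `n` -/
theorem path_sq (n : ℕ) (g : ℕ → ℝ) :
    (g n - g 0) ^ 2 ≤ (n : ℝ) * ∑ t ∈ Finset.range n, (g (t + 1) - g t) ^ 2 := by
  rw [← Finset.sum_range_sub]
  have h2 := sq_sum_le (Finset.range n) (fun t => g (t + 1) - g t)
  rwa [Finset.card_range] at h2

theorem av_e1 (j : ℕ) (h : (Fin d → ℕ) → ℝ) (u : Fin d → ℕ) (i : Fin d) :
    av j h (u + Pi.single i 1) - av j h u = (∑ x ∈ cu d (2 ^ j),
      (h (2 ^ j • u + x + Pi.single i (2 ^ j)) - h (2 ^ j • u + x))) / ((2 : ℝ) ^ j) ^ d := by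
    unfold av
    rw [← sub_div, ← Finset.sum_sub_distrib]
    congr 1
    refine Finset.sum_congr rfl fun x _ => ?_
    have : 2 ^ j • (u + Pi.single i 1) + x = 2 ^ j • u + x + Pi.single i (2 ^ j) := by
      funext l
      simp only [Pi.add_apply, Pi.smul_apply, smul_eq_mul]
      by_cases hl : l = i
      · subst hl
        rw [Pi.single_eq_same, Pi.single_eq_same]
        ring
      · rw [Pi.single_eq_of_ne hl, Pi.single_eq_of_ne hl]
        ring
    rw [this]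

theorem av_e2 (j : ℕ) (h : (Fin d → ℕ) → ℝ) (u : Fin d → ℕ) (i : Fin d) : ∀ x, (h (2 ^ j • u + x + Pi.single i (2 ^ j)) - h (2 ^ j • u + x)) ^ 2 ≤
      (2 : ℝ) ^ j * ∑ t ∈ Finset.range (2 ^ j),
        (h (2 ^ j • u + x + Pi.single i (t + 1)) - h (2 ^ j • u + x + Pi.single i t)) ^ 2 := by
    intro x
    have h1 := path_sq (2 ^ j) (fun t => h (2 ^ j • u + x + Pi.single i t))
    rw [Nat.cast_pow, Nat.cast_ofNat] at h1
    have h3 : (2 ^ j • u + x + Pi.single i 0 : Fin d → ℕ) = 2 ^ j • u + x := by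
      rw [Pi.single_zero, add_zero]
    have h4 : h (2 ^ j • u + x) = h (2 ^ j • u + x + Pi.single i 0) := by rw [h3]
    rw [h4]
    exact h1

/-- neighbouring means -/
theorem av_step (j : ℕ) (h : (Fin d → ℕ) → ℝ) (u : Fin d → ℕ) (i : Fin d) :
    (av j h (u + Pi.single i 1) - av j h u) ^ 2 ≤ (((2 : ℝ) ^ j) ^ d)⁻¹ * ((2 : ℝ) ^ j *
      ∑ t ∈ Finset.range (2 ^ j), ∑ x ∈ cu d (2 ^ j),
        (h (2 ^ j • u + x + Pi.single i (t + 1)) - h (2 ^ j • u + x + Pi.single i t)) ^ 2) := by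
  have hp : 0 < ((2 : ℝ) ^ j) ^ d := by positivity
  have h3 := sq_sum_le (cu d (2 ^ j)) (fun x =>
    h (2 ^ j • u + x + Pi.single i (2 ^ j)) - h (2 ^ j • u + x))
  rw [pc] at h3
  have h4 : ∑ x ∈ cu d (2 ^ j), (h (2 ^ j • u + x + Pi.single i (2 ^ j)) - h (2 ^ j • u + x)) ^ 2 ≤
      (2 : ℝ) ^ j * ∑ t ∈ Finset.range (2 ^ j), ∑ x ∈ cu d (2 ^ j),
        (h (2 ^ j • u + x + Pi.single i (t + 1)) - h (2 ^ j • u + x + Pi.single i t)) ^ 2 := by
    rw [Finset.sum_comm, Finset.mul_sum]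
    exact Finset.sum_le_sum fun x _ => av_e2 j h u i x
  rw [av_e1]
  generalize (∑ x ∈ cu d (2 ^ j), (h (2 ^ j • u + x + Pi.single i (2 ^ j)) - h (2 ^ j • u + x))) = A at *
  generalize ∑ x ∈ cu d (2 ^ j), (h (2 ^ j • u + x + Pi.single i (2 ^ j)) - h (2 ^ j • u + x)) ^ 2 = B at *
  generalize ∑ t ∈ Finset.range (2 ^ j), ∑ x ∈ cu d (2 ^ j),
        (h (2 ^ j • u + x + Pi.single i (t + 1)) - h (2 ^ j • u + x + Pi.single i t)) ^ 2 = D at *
  generalize ((2 : ℝ) ^ j) ^ d = P at *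
  rw [div_pow, div_le_iff₀ (by positivity)]
  calc A ^ 2 ≤ P * B := h3
    _ ≤ P * (2 ^ j * D) := mul_le_mul_of_nonneg_left h4 hp.le
    _ = P⁻¹ * (2 ^ j * D) * P ^ 2 := by
        field_simp

/-- the sum over the even cells -/
theorem ev_sum (j l : ℕ) (h : (Fin d → ℕ) → ℝ) (i : Fin d) :
    ∑ u ∈ cu d (2 ^ (l + 1)), (if u i % 2 = 0 then
      (av j h (u + Pi.single i 1) - av j h u) ^ 2 else 0) ≤
      4 ^ j * (((2 : ℝ) ^ j) ^ d)⁻¹ * gi d (2 ^ (j + (l + 1))) i h := by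
  have hpj : 0 < 2 ^ j := by positivity
  set n : ℕ := 2 ^ (j + (l + 1)) with hn
  have hn' : n = 2 ^ j * 2 ^ (l + 1) := pow_add 2 j (l + 1)
  -- for one shift
  have key : ∀ t, t < 2 ^ j → ∑ u ∈ cu d (2 ^ (l + 1)), (if u i % 2 = 0 then
      ∑ x ∈ cu d (2 ^ j), (h (2 ^ j • u + x + Pi.single i (t + 1)) -
        h (2 ^ j • u + x + Pi.single i t)) ^ 2 else 0) ≤ gi d n i h := by
    intro t ht
    set F : (Fin d → ℕ) → ℝ := fun y => (h (y + Pi.single i 1) - h y) ^ 2 with hF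
    have e1 : ∑ u ∈ cu d (2 ^ (l + 1)), (if u i % 2 = 0 then
        ∑ x ∈ cu d (2 ^ j), (h (2 ^ j • u + x + Pi.single i (t + 1)) -
          h (2 ^ j • u + x + Pi.single i t)) ^ 2 else 0) =
        ∑ y ∈ cu d n, if (dv y (2 ^ j)) i % 2 = 0 then F (y + Pi.single i t) else 0 := by
      rw [hn', sum_cu_mul (2 ^ (l + 1)) hpj]
      refine Finset.sum_congr rfl fun u _ => ?_
      split_ifs with hu
      · refine Finset.sum_congr rfl fun x hx => ?_
        rw [dv_add hx, if_pos hu, hF]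
        show _ = (h (2 ^ j • u + x + Pi.single i t + Pi.single i 1) - _) ^ 2
        rw [add_assoc (2 ^ j • u + x), ← Pi.single_add]
      · symm
        refine Finset.sum_eq_zero fun x hx => ?_
        rw [dv_add hx, if_neg hu]
    rw [e1, ← Finset.sum_filter]
    have hinj : Set.InjOn (fun y : Fin d → ℕ => y + Pi.single i t)
        ((cu d n).filter fun y => (dv y (2 ^ j)) i % 2 = 0 : Finset (Fin d → ℕ)) :=
      fun y _ z _ hyz => add_right_cancel hyz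
    have e2 : ∑ y ∈ (cu d n).filter (fun y => (dv y (2 ^ j)) i % 2 = 0),
        F (y + Pi.single i t) = ∑ y ∈ ((cu d n).filter fun y =>
          (dv y (2 ^ j)) i % 2 = 0).image (fun y : Fin d → ℕ => y + Pi.single i t), F y := by
      rw [Finset.sum_image hinj]
    rw [e2]
    unfold gi
    rw [← Finset.sum_filter]
    refine Finset.sum_le_sum_of_subset_of_nonneg ?_ fun y _ _ => sq_nonneg _
    intro z hz
    obtain ⟨y, hy, rfl⟩ := Finset.mem_image.1 hz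
    rw [Finset.mem_filter, mem_cu] at hy
    obtain ⟨hy1, hy2⟩ := hy
    have hy3 : (y i / 2 ^ j) % 2 = 0 := hy2
    have hb : y i + t + 1 < n := by
      have h1 : y i < n := hy1 i
      have h2 : y i / 2 ^ j < 2 ^ (l + 1) := Nat.div_lt_of_lt_mul (by rw [← hn']; exact h1)
      have h3 : y i / 2 ^ j + 2 ≤ 2 ^ (l + 1) := by
        have h4 : 2 ^ (l + 1) = 2 * 2 ^ l := pow_succ' 2 l
        omega
      have h5 : y i < 2 ^ j * (y i / 2 ^ j + 1) := by
        have := Nat.lt_mul_div_succ (y i) hpj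
        exact this
      have h6 : 2 ^ j * (y i / 2 ^ j + 2) ≤ 2 ^ j * 2 ^ (l + 1) := Nat.mul_le_mul_left _ h3
      rw [← hn'] at h6
      have h7 : 2 ^ j * (y i / 2 ^ j + 2) = 2 ^ j * (y i / 2 ^ j + 1) + 2 ^ j := by ring
      omega
    rw [Finset.mem_filter, mem_cu]
    refine ⟨fun q => ?_, ?_⟩
    · show y q + (Pi.single i t : Fin d → ℕ) q < n
      by_cases hq : q = i
      · subst hq
        rw [Pi.single_eq_same]
        omega
      · rw [Pi.single_eq_of_ne hq, add_zero]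
        exact hy1 q
    · show y i + (Pi.single i t : Fin d → ℕ) i + 1 < n
      rw [Pi.single_eq_same]
      exact hb
  have hp : 0 < ((2 : ℝ) ^ j) ^ d := by positivity
  calc ∑ u ∈ cu d (2 ^ (l + 1)), (if u i % 2 = 0 then
        (av j h (u + Pi.single i 1) - av j h u) ^ 2 else 0)
      ≤ ∑ u ∈ cu d (2 ^ (l + 1)), (((2 : ℝ) ^ j) ^ d)⁻¹ * ((2 : ℝ) ^ j *
          ∑ t ∈ Finset.range (2 ^ j), (if u i % 2 = 0 then ∑ x ∈ cu d (2 ^ j),
            (h (2 ^ j • u + x + Pi.single i (t + 1)) - h (2 ^ j • u + x + Pi.single i t)) ^ 2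
              else 0)) := by
        refine Finset.sum_le_sum fun u _ => ?_
        split_ifs with hu
        · exact av_step j h u i
        · simp
    _ = (((2 : ℝ) ^ j) ^ d)⁻¹ * ((2 : ℝ) ^ j * ∑ t ∈ Finset.range (2 ^ j),
          ∑ u ∈ cu d (2 ^ (l + 1)), (if u i % 2 = 0 then ∑ x ∈ cu d (2 ^ j),
            (h (2 ^ j • u + x + Pi.single i (t + 1)) - h (2 ^ j • u + x + Pi.single i t)) ^ 2
              else 0)) := by
        rw [← Finset.mul_sum, ← Finset.mul_sum, Finset.sum_comm]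
    _ ≤ (((2 : ℝ) ^ j) ^ d)⁻¹ * ((2 : ℝ) ^ j * ∑ t ∈ Finset.range (2 ^ j), gi d n i h) := by
        gcongr with t ht
        exact key t (Finset.mem_range.1 ht)
    _ = 4 ^ j * (((2 : ℝ) ^ j) ^ d)⁻¹ * gi d n i h := by
        rw [Finset.sum_const, Finset.card_range, nsmul_eq_mul]
        push_cast
        have : (4 : ℝ) ^ j = 2 ^ j * 2 ^ j := by rw [← mul_pow]; norm_num
        rw [this]
        ring

/-- the mean minimises -/
theorem mean_min {ι : Type} (s : Finset ι) (f : ι → ℝ) (c m : ℝ)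
    (hm : (s.card : ℝ) * m = ∑ i ∈ s, f i) :
    ∑ i ∈ s, (f i - m) ^ 2 ≤ ∑ i ∈ s, (f i - c) ^ 2 := by
  have e : ∑ i ∈ s, (f i - c) ^ 2 = ∑ i ∈ s, (f i - m) ^ 2 + (s.card : ℝ) * (m - c) ^ 2 := by
    have h1 : ∀ i ∈ s, (f i - c) ^ 2 = (f i - m) ^ 2 + (2 * (m - c) * f i +
        (c ^ 2 - m ^ 2)) := fun i _ => by ring
    rw [Finset.sum_congr rfl h1, Finset.sum_add_distrib, Finset.sum_add_distrib,
      ← Finset.mul_sum, ← hm, Finset.sum_const, nsmul_eq_mul]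
    ring
  rw [e]
  have : 0 ≤ (s.card : ℝ) * (m - c) ^ 2 := by positivity
  linarith

/-- the energy of the small cube -/
def he (a : (Fin d → ℕ) → ℝ) : ℝ :=
  ∑ i, ∑ e ∈ cu d 2, if e i % 2 = 0 then (a (e + Pi.single i 1) - a e) ^ 2 else 0

theorem he_nonneg (a : (Fin d → ℕ) → ℝ) : 0 ≤ he a := by
  unfold he
  refine Finset.sum_nonneg fun i _ => Finset.sum_nonneg fun e _ => ?_
  split_ifs
  · positivity
  · exact le_rfl

theorem he_edge (a : (Fin d → ℕ) → ℝ) (i : Fin d) (e : Fin d → ℕ) (he' : e ∈ cu d 2)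
    (h0 : e i = 0) : |a (e + Pi.single i 1) - a e| ≤ Real.sqrt (he a) := by
  rw [← Real.sqrt_sq_eq_abs]
  apply Real.sqrt_le_sqrt
  unfold he
  have h1 : (a (e + Pi.single i 1) - a e) ^ 2 =
      if e i % 2 = 0 then (a (e + Pi.single i 1) - a e) ^ 2 else 0 := by
    rw [h0, if_pos (by norm_num)]
  rw [h1]
  refine (Finset.single_le_sum (f := fun e => if e i % 2 = 0 then
    (a (e + Pi.single i 1) - a e) ^ 2 else 0) ?_ he').trans ?_
  · intro e _
    split_ifs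
    · positivity
    · exact le_rfl
  · refine Finset.single_le_sum (f := fun i => ∑ e ∈ cu d 2, if e i % 2 = 0 then
      (a (e + Pi.single i 1) - a e) ^ 2 else 0) ?_ (Finset.mem_univ i)
    intro i _
    refine Finset.sum_nonneg fun e _ => ?_
    split_ifs
    · positivity
    · exact le_rfl

theorem he_path (a : (Fin d → ℕ) → ℝ) (e : Fin d → ℕ) (hE : e ∈ cu d 2) (s : Finset (Fin d)) :
    |a (fun i => if i ∈ s then e i else 0) - a 0| ≤ s.card * Real.sqrt (he a) := by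
  classical
  induction s using Finset.induction_on with
  | empty =>
    have : (fun i : Fin d => if i ∈ (∅ : Finset (Fin d)) then e i else 0) = 0 := by
      funext i
      simp
    rw [this, sub_self, abs_zero]
    simp
  | insert i s hi ih =>
    rw [Finset.card_insert_of_notMem hi]
    push_cast
    rw [mem_cu] at hE
    have hei : e i = 0 ∨ e i = 1 := by
      have := hE i
      omega
    have hs : 0 ≤ Real.sqrt (he a) := Real.sqrt_nonneg _
    rcases hei with h0 | h1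
    · have : (fun q : Fin d => if q ∈ insert i s then e q else 0) =
          fun q => if q ∈ s then e q else 0 := by
        funext q
        by_cases hq : q = i
        · subst hq
          rw [if_pos (Finset.mem_insert_self _ _), if_neg hi, h0]
        · simp [Finset.mem_insert, hq]
      rw [this]
      linarith
    · set z : Fin d → ℕ := fun q => if q ∈ s then e q else 0 with hz
      have hzi : z i = 0 := by
        rw [hz]
        simp [hi]
      have hzc : z ∈ cu d 2 := by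
        rw [mem_cu]
        intro q
        rw [hz]
        dsimp only
        split_ifs
        · exact hE q
        · norm_num
      have : (fun q : Fin d => if q ∈ insert i s then e q else 0) = z + Pi.single i 1 := by
        funext q
        show _ = z q + (Pi.single i 1 : Fin d → ℕ) q
        by_cases hq : q = i
        · subst hq
          rw [if_pos (Finset.mem_insert_self _ _), hzi, Pi.single_eq_same, h1]
        · rw [Pi.single_eq_of_ne hq, add_zero, hz]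
          simp [Finset.mem_insert, hq]
      rw [this]
      have h2 := he_edge a i z hzc hzi
      have h3 := abs_sub_le (a (z + Pi.single i 1)) (a z) (a 0)
      linarith

theorem he_bound (a : (Fin d → ℕ) → ℝ) (m : ℝ) (hm : (2 : ℝ) ^ d * m = ∑ e ∈ cu d 2, a e) :
    ∑ e ∈ cu d 2, (a e - m) ^ 2 ≤ (2 : ℝ) ^ d * d ^ 2 * he a := by
  have hc : ((cu d 2).card : ℝ) = (2 : ℝ) ^ d := by
    rw [card_cu]
    push_cast
    rfl
  refine (mean_min (cu d 2) a (a 0) m (by rw [hc]; exact hm)).trans ?_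
  have h1 : ∀ e ∈ cu d 2, (a e - a 0) ^ 2 ≤ d ^ 2 * he a := by
    intro e hE
    have h2 := he_path a e hE Finset.univ
    have h3 : (fun i : Fin d => if i ∈ (Finset.univ : Finset (Fin d)) then e i else 0) = e := by
      funext i
      simp
    rw [h3, Finset.card_univ, Fintype.card_fin] at h2
    have h4 : (a e - a 0) ^ 2 ≤ (d * Real.sqrt (he a)) ^ 2 := by
      rw [← sq_abs]
      exact pow_le_pow_left₀ (abs_nonneg _) h2 2
    rw [mul_pow, Real.sq_sqrt (he_nonneg a)] at h4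
    exact h4
  refine (Finset.sum_le_sum h1).trans (le_of_eq ?_)
  rw [Finset.sum_const, nsmul_eq_mul, hc]
  ring

/-- the mean over the parent is the mean of the means over the children -/
theorem av_succ (j : ℕ) (h : (Fin d → ℕ) → ℝ) (v : Fin d → ℕ) :
    (2 : ℝ) ^ d * av (j + 1) h v = ∑ e ∈ cu d 2, av j h (2 • v + e) := by
  unfold av
  rw [← Finset.sum_div]
  have h1 : ∑ x ∈ cu d (2 ^ (j + 1)), h (2 ^ (j + 1) • v + x) =
      ∑ e ∈ cu d 2, ∑ x ∈ cu d (2 ^ j), h (2 ^ j • (2 • v + e) + x) := by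
    rw [pow_succ 2 j, sum_cu_mul 2 (by positivity : 0 < 2 ^ j)]
    refine Finset.sum_congr rfl fun e _ => Finset.sum_congr rfl fun x _ => ?_
    congr 1
    rw [smul_add, ← add_assoc, smul_smul]
  rw [h1]
  have h2 : ((2 : ℝ) ^ (j + 1)) ^ d = 2 ^ d * ((2 : ℝ) ^ j) ^ d := by
    rw [pow_succ, mul_pow]
    ring
  rw [h2]
  field_simp

/-- one level -/
def bb (j : ℕ) (h : (Fin d → ℕ) → ℝ) (u : Fin d → ℕ) : ℝ := av j h u - av (j + 1) h (dv u 2)

theorem level (j l : ℕ) (h : (Fin d → ℕ) → ℝ) :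
    ∑ u ∈ cu d (2 ^ (l + 1)), bb j h u ^ 2 ≤ (2 : ℝ) ^ d * d ^ 2 *
      (4 ^ j * (((2 : ℝ) ^ j) ^ d)⁻¹ * gr d (2 ^ (j + (l + 1))) h) := by
  have h0 : (2 : ℕ) ^ (l + 1) = 2 * 2 ^ l := pow_succ' 2 l
  have e1 : ∑ u ∈ cu d (2 ^ (l + 1)), bb j h u ^ 2 = ∑ v ∈ cu d (2 ^ l), ∑ e ∈ cu d 2,
      (av j h (2 • v + e) - av (j + 1) h v) ^ 2 := by
    rw [h0, sum_cu_mul (2 ^ l) (by norm_num : 0 < 2)]
    refine Finset.sum_congr rfl fun v _ => Finset.sum_congr rfl fun e hE => ?_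
    unfold bb
    rw [dv_add hE]
  rw [e1]
  have e2 : ∀ v ∈ cu d (2 ^ l), ∑ e ∈ cu d 2, (av j h (2 • v + e) - av (j + 1) h v) ^ 2 ≤
      (2 : ℝ) ^ d * d ^ 2 * ∑ i, ∑ e ∈ cu d 2, (if (2 • v + e) i % 2 = 0 then
        (av j h (2 • v + e + Pi.single i 1) - av j h (2 • v + e)) ^ 2 else 0) := by
    intro v _
    refine (he_bound (fun e => av j h (2 • v + e)) _ (av_succ j h v)).trans (le_of_eq ?_)
    congr 1
    unfold he
    refine Finset.sum_congr rfl fun i _ => Finset.sum_congr rfl fun e _ => ?_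
    have h3 : (2 • v + e) i % 2 = e i % 2 := by
      show (2 • v i + e i) % 2 = e i % 2
      rw [smul_eq_mul]
      omega
    rw [h3]
    simp only [add_assoc]
  refine (Finset.sum_le_sum e2).trans ?_
  rw [← Finset.mul_sum]
  refine mul_le_mul_of_nonneg_left ?_ (by positivity)
  rw [Finset.sum_comm]
  unfold gr
  rw [Finset.mul_sum]
  refine Finset.sum_le_sum fun i _ => ?_
  refine le_trans (le_of_eq ?_) (ev_sum j l h i)
  rw [h0, sum_cu_mul (2 ^ l) (by norm_num : 0 < 2)]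

theorem av_zero (h : (Fin d → ℕ) → ℝ) (u : Fin d → ℕ) : av 0 h u = h u := by
  unfold av
  have h1 : cu d (2 ^ 0) = {0} := by
    ext x
    rw [mem_cu, Finset.mem_singleton]
    constructor
    · intro hx
      funext i
      have := hx i
      simp only [pow_zero, Nat.lt_one_iff] at this
      exact this
    · rintro rfl i
      simp
  rw [h1, Finset.sum_singleton]
  simp

theorem dv_dv (x : Fin d → ℕ) (a b : ℕ) : dv (dv x a) b = dv x (a * b) := by
  funext i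
  exact Nat.div_div_eq_div_mul _ _ _

/-- telescoping -/
theorem tele (k : ℕ) (h : (Fin d → ℕ) → ℝ) (x : Fin d → ℕ) (hx : x ∈ cu d (2 ^ k)) :
    h x - av k h 0 = ∑ j ∈ Finset.range k, bb j h (dv x (2 ^ j)) := by
  have h1 := Finset.sum_range_sub' (fun j => av j h (dv x (2 ^ j))) k
  have h2 : dv x (2 ^ 0) = x := by
    funext i
    simp [dv]
  have h3 : dv x (2 ^ k) = 0 := by
    rw [mem_cu] at hx
    funext i
    exact Nat.div_eq_of_lt (hx i)
  rw [h2, h3, av_zero] at h1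
  rw [← h1]
  refine Finset.sum_congr rfl fun j _ => ?_
  unfold bb
  rw [dv_dv, pow_succ]

/-- the weights -/
def gw (J j : ℕ) : ℝ := (2 / 3 : ℝ) ^ ((J - j) + (j - J))

theorem gw_pos (J j : ℕ) : 0 < gw J j := by
  unfold gw
  positivity

theorem geo_le (r : ℝ) (h0 : 0 ≤ r) (h1 : r < 1) (n : ℕ) :
    ∑ i ∈ Finset.range n, r ^ i ≤ (1 - r)⁻¹ := by
  rw [geom_sum_eq h1.ne]
  have h2 : (r ^ n - 1) / (r - 1) = (1 - r ^ n) / (1 - r) := by
    rw [← neg_div_neg_eq]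
    congr 1 <;> ring
  rw [h2, div_eq_mul_inv]
  have h3 : 1 - r ^ n ≤ 1 := by
    have := pow_nonneg h0 n
    linarith
  have h4 : 0 ≤ (1 - r)⁻¹ := inv_nonneg.2 (by linarith)
  calc (1 - r ^ n) * (1 - r)⁻¹ ≤ 1 * (1 - r)⁻¹ := mul_le_mul_of_nonneg_right h3 h4
    _ = _ := one_mul _

/-- splitting a sum over the levels at `J` -/
theorem split_le (k J : ℕ) (f p q : ℕ → ℝ) (P Q : ℝ)
    (h1 : ∀ j, j < J → f j ≤ p (J - j)) (h2 : ∀ j, J ≤ j → f j ≤ q (j - J))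
    (hf : ∀ j, 0 ≤ f j)
    (hp : ∀ n, ∑ i ∈ Finset.range n, p (i + 1) ≤ P) (hq : ∀ n, ∑ i ∈ Finset.range n, q i ≤ Q) :
    ∑ j ∈ Finset.range k, f j ≤ P + Q := by
  have e1 : ∑ j ∈ Finset.range k, f j ≤ ∑ j ∈ Finset.range (J + k), f j :=
    Finset.sum_le_sum_of_subset_of_nonneg (Finset.range_subset_range.2 (by omega))
      fun j _ _ => hf j
  rw [Finset.sum_range_add] at e1
  refine e1.trans (add_le_add ?_ ?_)
  · rw [← Finset.sum_range_reflect]
    refine le_trans (Finset.sum_le_sum fun j hj => ?_) (hp J)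
    rw [Finset.mem_range] at hj
    have h3 := h1 (J - 1 - j) (by omega)
    rwa [show J - (J - 1 - j) = j + 1 by omega] at h3
  · refine le_trans (Finset.sum_le_sum fun j hj => ?_) (hq k)
    have h3 := h2 (J + j) (by omega)
    rwa [show J + j - J = j by omega] at h3

theorem gw_sum (k J : ℕ) : ∑ j ∈ Finset.range k, gw J j ≤ 5 := by
  have h := split_le k J (gw J) (fun i => (2 / 3 : ℝ) ^ i) (fun i => (2 / 3 : ℝ) ^ i) 2 3 ?_ ?_
    (fun j => (gw_pos J j).le) ?_ ?_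
  · linarith
  · intro j hj
    unfold gw
    rw [show J - j + (j - J) = J - j by omega]
  · intro j hj
    unfold gw
    rw [show J - j + (j - J) = j - J by omega]
  · intro n
    have h1 : ∀ i ∈ Finset.range n, (2 / 3 : ℝ) ^ (i + 1) = 2 / 3 * (2 / 3 : ℝ) ^ i :=
      fun i _ => by rw [pow_succ']
    rw [Finset.sum_congr rfl h1, ← Finset.mul_sum]
    have := geo_le (2 / 3) (by norm_num) (by norm_num) n
    norm_num at this
    linarith
  · intro n
    have := geo_le (2 / 3) (by norm_num) (by norm_num) n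
    norm_num at this
    linarith

/-- weighted Cauchy-Schwarz over the levels -/
theorem lev_cs (k J : ℕ) (c : ℕ → ℝ) :
    (∑ j ∈ Finset.range k, c j) ^ 2 ≤ 5 * ∑ j ∈ Finset.range k, c j ^ 2 / gw J j := by
  rcases Nat.eq_zero_or_pos k with h0 | h0
  · subst h0
    simp
  have h1 := Finset.sq_sum_div_le_sum_sq_div (Finset.range k) c
    (g := gw J) (fun j _ => gw_pos J j)
  have h2 : 0 < ∑ j ∈ Finset.range k, gw J j :=
    Finset.sum_pos (fun j _ => gw_pos J j) ⟨0, Finset.mem_range.2 h0⟩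
  rw [div_le_iff₀ h2] at h1
  have h3 : 0 ≤ ∑ j ∈ Finset.range k, c j ^ 2 / gw J j :=
    Finset.sum_nonneg fun j _ => div_nonneg (sq_nonneg _) (gw_pos J j).le
  calc _ ≤ (∑ j ∈ Finset.range k, c j ^ 2 / gw J j) * ∑ j ∈ Finset.range k, gw J j := h1
    _ ≤ (∑ j ∈ Finset.range k, c j ^ 2 / gw J j) * 5 :=
        mul_le_mul_of_nonneg_left (gw_sum k J) h3
    _ = _ := mul_comm _ _

/-- the sum over the levels: `m j ≤ θ` and `m j ≤ T / 2^(j d)` -/
theorem lev_sum (hd : 3 ≤ d) (k J : ℕ) (m : ℕ → ℝ) (θ T : ℝ) (hθ : 0 ≤ θ) (hT : 0 ≤ T)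
    (hm0 : ∀ j, 0 ≤ m j) (hm1 : ∀ j, m j ≤ θ) (hm2 : ∀ j, m j ≤ T * (((2 : ℝ) ^ j) ^ d)⁻¹) :
    ∑ j ∈ Finset.range k, m j * 4 ^ j / gw J j ≤ 4 ^ J * θ + 4 * (((1 / 2 : ℝ) ^ (d - 2)) ^ J * T) := by
  refine split_le k J _ (fun i => 4 ^ J * θ * (3 / 8 : ℝ) ^ i)
    (fun i => ((1 / 2 : ℝ) ^ (d - 2)) ^ J * T * (3 / 4 : ℝ) ^ i) _ _ ?_ ?_ ?_ ?_ ?_
  · intro j hj
    obtain ⟨i, rfl⟩ : ∃ i, J = j + i := ⟨J - j, by omega⟩
    rw [show j + i - j = i by omega]
    unfold gw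
    rw [show j + i - j + (j - (j + i)) = i by omega]
    have h1 : m j * 4 ^ j / (2 / 3 : ℝ) ^ i ≤ θ * 4 ^ j / (2 / 3 : ℝ) ^ i := by
      gcongr
      exact hm1 j
    refine h1.trans (le_of_eq ?_)
    rw [pow_add, div_eq_mul_inv, ← inv_pow]
    have h2 : (3 / 8 : ℝ) ^ i * 4 ^ i = ((2 / 3 : ℝ)⁻¹) ^ i := by
      rw [← mul_pow]
      norm_num
    rw [← h2]
    ring
  · intro j hj
    obtain ⟨i, rfl⟩ : ∃ i, j = J + i := ⟨j - J, by omega⟩
    rw [show J + i - J = i by omega]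
    unfold gw
    rw [show J - (J + i) + (J + i - J) = i by omega]
    have h1 : m (J + i) * 4 ^ (J + i) / (2 / 3 : ℝ) ^ i ≤
        T * (((2 : ℝ) ^ (J + i)) ^ d)⁻¹ * 4 ^ (J + i) / (2 / 3 : ℝ) ^ i := by
      gcongr
      exact hm2 _
    refine h1.trans ?_
    obtain ⟨e, rfl⟩ : ∃ e, d = e + 3 := ⟨d - 3, by omega⟩
    rw [show e + 3 - 2 = e + 1 by omega]
    have h3 : (((2 : ℝ) ^ (J + i)) ^ (e + 3))⁻¹ * 4 ^ (J + i) = ((1 / 2 : ℝ) ^ (e + 1)) ^ (J + i) := by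
      rw [← pow_mul, ← pow_mul]
      have h4 : (4 : ℝ) ^ (J + i) = 2 ^ ((J + i) * 2) := by
        rw [mul_comm (J + i) 2, pow_mul]
        norm_num
      rw [h4, one_div, inv_pow, ← div_eq_inv_mul, ← one_div, div_eq_div_iff (by positivity)
        (by positivity), one_mul, ← pow_add]
      congr 1
      ring
    have h5 : ((1 / 2 : ℝ) ^ (e + 1)) ^ i ≤ (1 / 2 : ℝ) ^ i := by
      apply pow_le_pow_left₀ (by positivity)
      calc (1 / 2 : ℝ) ^ (e + 1) ≤ (1 / 2 : ℝ) ^ 1 :=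
            pow_le_pow_of_le_one (by norm_num) (by norm_num) (by omega)
        _ = 1 / 2 := pow_one _
    have h6 : (3 / 4 : ℝ) ^ i = (1 / 2 : ℝ) ^ i * ((2 / 3 : ℝ) ^ i)⁻¹ := by
      rw [← inv_pow, ← mul_pow]
      norm_num
    calc T * (((2 : ℝ) ^ (J + i)) ^ (e + 3))⁻¹ * 4 ^ (J + i) / (2 / 3 : ℝ) ^ i
        = T * (((1 / 2 : ℝ) ^ (e + 1)) ^ J * ((1 / 2 : ℝ) ^ (e + 1)) ^ i) * ((2 / 3 : ℝ) ^ i)⁻¹ := by
          rw [mul_assoc T, h3, pow_add]
          rfl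
      _ ≤ T * (((1 / 2 : ℝ) ^ (e + 1)) ^ J * (1 / 2 : ℝ) ^ i) * ((2 / 3 : ℝ) ^ i)⁻¹ := by
          gcongr
      _ = _ := by
          rw [h6]
          ring
  · intro j
    have := gw_pos J j
    have := hm0 j
    positivity
  · intro n
    have h1 : ∀ i ∈ Finset.range n, 4 ^ J * θ * (3 / 8 : ℝ) ^ (i + 1) =
        4 ^ J * θ * (3 / 8) * (3 / 8 : ℝ) ^ i := fun i _ => by ring
    rw [Finset.sum_congr rfl h1, ← Finset.mul_sum]
    have h2 := geo_le (3 / 8) (by norm_num) (by norm_num) n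
    have h3 : 0 ≤ 4 ^ J * θ := by positivity
    calc 4 ^ J * θ * (3 / 8) * ∑ i ∈ Finset.range n, (3 / 8 : ℝ) ^ i
        ≤ 4 ^ J * θ * (3 / 8) * (1 - 3 / 8)⁻¹ := mul_le_mul_of_nonneg_left h2 (by positivity)
      _ ≤ 4 ^ J * θ := by
          have : (3 / 8 : ℝ) * (1 - 3 / 8)⁻¹ ≤ 1 := by norm_num
          nlinarith
  · intro n
    rw [← Finset.mul_sum]
    have h2 := geo_le (3 / 4) (by norm_num) (by norm_num) n
    have h3 : 0 ≤ ((1 / 2 : ℝ) ^ (d - 2)) ^ J * T := by positivity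
    calc ((1 / 2 : ℝ) ^ (d - 2)) ^ J * T * ∑ i ∈ Finset.range n, (3 / 4 : ℝ) ^ i
        ≤ ((1 / 2 : ℝ) ^ (d - 2)) ^ J * T * (1 - 3 / 4)⁻¹ := mul_le_mul_of_nonneg_left h2 h3
      _ = _ := by
          norm_num
          ring

/-- the constant -/
def CS (d : ℕ) : ℝ := 20 * ((2 : ℝ) ^ d * d ^ 2)

theorem CS_nonneg (d : ℕ) : 0 ≤ CS d := by
  unfold CS
  positivity

/-- SOB: the weighted Poincare inequality on a dyadic cube. -/
theorem sob (hd : 3 ≤ d) (k J : ℕ) (a h : (Fin d → ℕ) → ℝ) (θ T : ℝ)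
    (ha0 : ∀ x ∈ cu d (2 ^ k), 0 ≤ a x) (ha1 : ∀ x ∈ cu d (2 ^ k), a x ≤ θ)
    (haT : ∑ x ∈ cu d (2 ^ k), a x ≤ T) :
    ∑ x ∈ cu d (2 ^ k), a x * (h x - av k h 0) ^ 2 ≤
      CS d * (4 ^ J * θ + ((1 / 2 : ℝ) ^ (d - 2)) ^ J * T) * gr d (2 ^ k) h := by
  have hT : 0 ≤ T := (Finset.sum_nonneg ha0).trans haT
  have hθ : 0 ≤ θ := by
    have h0 : (0 : Fin d → ℕ) ∈ cu d (2 ^ k) := by
      rw [mem_cu]
      intro i
      exact Nat.pos_of_ne_zero (by positivity)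
    exact (ha0 0 h0).trans (ha1 0 h0)
  have hg := gr_nonneg (d := d) (2 ^ k) h
  -- the levels
  have hlev : ∀ j ∈ Finset.range k, ∑ x ∈ cu d (2 ^ k), a x * bb j h (dv x (2 ^ j)) ^ 2 ≤
      min θ (T * (((2 : ℝ) ^ j) ^ d)⁻¹) * 4 ^ j * ((2 : ℝ) ^ d * d ^ 2 * gr d (2 ^ k) h) := by
    intro j hj
    rw [Finset.mem_range] at hj
    obtain ⟨l, rfl⟩ : ∃ l, k = j + (l + 1) := ⟨k - j - 1, by omega⟩
    set n : ℕ := 2 ^ (j + (l + 1)) with hn
    have hn' : n = 2 ^ j * 2 ^ (l + 1) := pow_add 2 j (l + 1)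
    have hp : 0 < ((2 : ℝ) ^ j) ^ d := by positivity
    have e1 : ∑ x ∈ cu d n, a x * bb j h (dv x (2 ^ j)) ^ 2 =
        ∑ u ∈ cu d (2 ^ (l + 1)), (∑ x ∈ cu d (2 ^ j), a (2 ^ j • u + x)) * bb j h u ^ 2 := by
      rw [hn', sum_cu_mul (2 ^ (l + 1)) (by positivity : 0 < 2 ^ j)]
      refine Finset.sum_congr rfl fun u _ => ?_
      rw [Finset.sum_mul]
      refine Finset.sum_congr rfl fun x hx => ?_
      rw [dv_add hx]
    have hmem : ∀ u ∈ cu d (2 ^ (l + 1)), ∀ x ∈ cu d (2 ^ j), 2 ^ j • u + x ∈ cu d n := by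
      intro u hu x hx
      rw [mem_cu] at hu hx ⊢
      intro i
      show 2 ^ j • u i + x i < n
      rw [smul_eq_mul, hn']
      have h1 := hu i
      have h2 := hx i
      have h3 : 2 ^ j * (u i + 1) ≤ 2 ^ j * 2 ^ (l + 1) := Nat.mul_le_mul_left _ h1
      rw [mul_add, mul_one] at h3
      omega
    have e2 : ∀ u ∈ cu d (2 ^ (l + 1)), ∑ x ∈ cu d (2 ^ j), a (2 ^ j • u + x) ≤
        ((2 : ℝ) ^ j) ^ d * min θ (T * (((2 : ℝ) ^ j) ^ d)⁻¹) := by
      intro u hu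
      rw [mul_min_of_nonneg _ _ hp.le]
      apply le_min
      · refine (Finset.sum_le_sum fun x hx => ha1 _ (hmem u hu x hx)).trans (le_of_eq ?_)
        rw [Finset.sum_const, nsmul_eq_mul, pc]
      · have h5 : ((2 : ℝ) ^ j) ^ d * (T * (((2 : ℝ) ^ j) ^ d)⁻¹) = T := by
          field_simp
        rw [h5]
        refine le_trans ?_ haT
        rw [hn', sum_cu_mul (2 ^ (l + 1)) (by positivity : 0 < 2 ^ j)]
        refine Finset.single_le_sum (f := fun u => ∑ x ∈ cu d (2 ^ j), a (2 ^ j • u + x)) ?_ hu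
        intro u hu
        exact Finset.sum_nonneg fun x hx => ha0 _ (hmem u hu x hx)
    have hmn : 0 ≤ min θ (T * (((2 : ℝ) ^ j) ^ d)⁻¹) := le_min hθ (by positivity)
    rw [e1]
    calc ∑ u ∈ cu d (2 ^ (l + 1)), (∑ x ∈ cu d (2 ^ j), a (2 ^ j • u + x)) * bb j h u ^ 2
        ≤ ∑ u ∈ cu d (2 ^ (l + 1)), ((2 : ℝ) ^ j) ^ d * min θ (T * (((2 : ℝ) ^ j) ^ d)⁻¹) *
            bb j h u ^ 2 :=
          Finset.sum_le_sum fun u hu => mul_le_mul_of_nonneg_right (e2 u hu) (sq_nonneg _)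
      _ = ((2 : ℝ) ^ j) ^ d * min θ (T * (((2 : ℝ) ^ j) ^ d)⁻¹) *
            ∑ u ∈ cu d (2 ^ (l + 1)), bb j h u ^ 2 := by rw [Finset.mul_sum]
      _ ≤ ((2 : ℝ) ^ j) ^ d * min θ (T * (((2 : ℝ) ^ j) ^ d)⁻¹) * ((2 : ℝ) ^ d * d ^ 2 *
            (4 ^ j * (((2 : ℝ) ^ j) ^ d)⁻¹ * gr d n h)) :=
          mul_le_mul_of_nonneg_left (level j l h) (by positivity)
      _ = _ := by
          field_simp
  have hpt : ∀ x ∈ cu d (2 ^ k), a x * (h x - av k h 0) ^ 2 ≤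
      5 * ∑ j ∈ Finset.range k, a x * bb j h (dv x (2 ^ j)) ^ 2 / gw J j := by
    intro x hx
    rw [tele k h x hx]
    have h1 := mul_le_mul_of_nonneg_left (lev_cs k J fun j => bb j h (dv x (2 ^ j))) (ha0 x hx)
    refine h1.trans (le_of_eq ?_)
    rw [Finset.mul_sum, Finset.mul_sum, Finset.mul_sum]
    exact Finset.sum_congr rfl fun j _ => by ring
  refine (Finset.sum_le_sum hpt).trans ?_
  rw [← Finset.mul_sum, Finset.sum_comm]
  have h6 : ∑ j ∈ Finset.range k, ∑ x ∈ cu d (2 ^ k), a x * bb j h (dv x (2 ^ j)) ^ 2 / gw J j ≤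
      ((2 : ℝ) ^ d * d ^ 2 * gr d (2 ^ k) h) * ∑ j ∈ Finset.range k,
        min θ (T * (((2 : ℝ) ^ j) ^ d)⁻¹) * 4 ^ j / gw J j := by
    rw [Finset.mul_sum]
    refine Finset.sum_le_sum fun j hj => ?_
    rw [← Finset.sum_div]
    have := gw_pos J j
    refine (div_le_div_of_nonneg_right (hlev j hj) this.le).trans (le_of_eq ?_)
    ring
  have h7 := lev_sum hd k J (fun j => min θ (T * (((2 : ℝ) ^ j) ^ d)⁻¹)) θ T hθ hT
    (fun j => le_min hθ (by positivity)) (fun j => min_le_left _ _) (fun j => min_le_right _ _)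
  have h8 : 0 ≤ (2 : ℝ) ^ d * d ^ 2 * gr d (2 ^ k) h := by positivity
  have h9 : 0 ≤ 4 ^ J * θ := by positivity
  calc 5 * ∑ j ∈ Finset.range k, ∑ x ∈ cu d (2 ^ k), a x * bb j h (dv x (2 ^ j)) ^ 2 / gw J j
      ≤ 5 * (((2 : ℝ) ^ d * d ^ 2 * gr d (2 ^ k) h) *
          (4 ^ J * θ + 4 * (((1 / 2 : ℝ) ^ (d - 2)) ^ J * T))) := by
        gcongr
        exact h6.trans (mul_le_mul_of_nonneg_left h7 h8)
    _ ≤ 5 * (((2 : ℝ) ^ d * d ^ 2 * gr d (2 ^ k) h) *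
          (4 * (4 ^ J * θ + (((1 / 2 : ℝ) ^ (d - 2)) ^ J * T)))) := by
        gcongr
        linarith
    _ = _ := by
        unfold CS
        ring

/-- HLS: the pairing of a function with the fluctuation of `h`. -/
theorem hls (hd : 3 ≤ d) (k J : ℕ) (φ h : (Fin d → ℕ) → ℝ) :
    (∑ x ∈ cu d (2 ^ k), φ x * (h x - av k h 0)) ^ 2 ≤
      CS d * (4 ^ J * ∑ x ∈ cu d (2 ^ k), φ x ^ 2 +
        ((1 / 2 : ℝ) ^ (d - 2)) ^ J * (∑ x ∈ cu d (2 ^ k), |φ x|) ^ 2) * gr d (2 ^ k) h := by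
  set θ : ℝ := ∑ x ∈ cu d (2 ^ k), φ x ^ 2 with hθd
  set T : ℝ := (∑ x ∈ cu d (2 ^ k), |φ x|) ^ 2 with hTd
  have hT : 0 ≤ T := sq_nonneg _
  have hθ : 0 ≤ θ := Finset.sum_nonneg fun _ _ => sq_nonneg _
  have hg := gr_nonneg (d := d) (2 ^ k) h
  -- the levels
  have hlev : ∀ j ∈ Finset.range k, (∑ x ∈ cu d (2 ^ k), φ x * bb j h (dv x (2 ^ j))) ^ 2 ≤
      min θ (T * (((2 : ℝ) ^ j) ^ d)⁻¹) * 4 ^ j * ((2 : ℝ) ^ d * d ^ 2 * gr d (2 ^ k) h) := by
    intro j hj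
    rw [Finset.mem_range] at hj
    obtain ⟨l, hl⟩ : ∃ l, k = j + (l + 1) := ⟨k - j - 1, by omega⟩
    have hn' : 2 ^ k = 2 ^ j * 2 ^ (l + 1) := by rw [hl]; exact pow_add 2 j (l + 1)
    have hp : 0 < ((2 : ℝ) ^ j) ^ d := by positivity
    set Φ : (Fin d → ℕ) → ℝ := fun u => ∑ x ∈ cu d (2 ^ j), φ (2 ^ j • u + x) with hΦ
    have e1 : ∑ x ∈ cu d (2 ^ k), φ x * bb j h (dv x (2 ^ j)) =
        ∑ u ∈ cu d (2 ^ (l + 1)), Φ u * bb j h u := by
      rw [hn', sum_cu_mul (2 ^ (l + 1)) (by positivity : 0 < 2 ^ j)]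
      refine Finset.sum_congr rfl fun u _ => ?_
      rw [hΦ]
      dsimp only
      rw [Finset.sum_mul]
      refine Finset.sum_congr rfl fun x hx => ?_
      rw [dv_add hx]
    have e2 : ∑ u ∈ cu d (2 ^ (l + 1)), Φ u ^ 2 ≤
        ((2 : ℝ) ^ j) ^ d * min θ (T * (((2 : ℝ) ^ j) ^ d)⁻¹) := by
      rw [mul_min_of_nonneg _ _ hp.le]
      apply le_min
      · have h1 : ∀ u ∈ cu d (2 ^ (l + 1)), Φ u ^ 2 ≤ ((2 : ℝ) ^ j) ^ d *
            ∑ x ∈ cu d (2 ^ j), φ (2 ^ j • u + x) ^ 2 := by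
          intro u _
          have := sq_sum_le (cu d (2 ^ j)) (fun x => φ (2 ^ j • u + x))
          rwa [pc] at this
        refine (Finset.sum_le_sum h1).trans (le_of_eq ?_)
        rw [← Finset.mul_sum, hθd, hn', sum_cu_mul (2 ^ (l + 1)) (by positivity : 0 < 2 ^ j)]
      · have h5 : ((2 : ℝ) ^ j) ^ d * (T * (((2 : ℝ) ^ j) ^ d)⁻¹) = T := by
          field_simp
        rw [h5]
        have h6 : ∀ u ∈ cu d (2 ^ (l + 1)), Φ u ^ 2 ≤
            (∑ x ∈ cu d (2 ^ j), |φ (2 ^ j • u + x)|) ^ 2 := by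
          intro u _
          rw [← sq_abs]
          exact pow_le_pow_left₀ (abs_nonneg _) (Finset.abs_sum_le_sum_abs _ _) 2
        refine (Finset.sum_le_sum h6).trans ?_
        have h7 := sum_sq_le (cu d (2 ^ (l + 1)))
          (fun u => ∑ x ∈ cu d (2 ^ j), |φ (2 ^ j • u + x)|)
          (fun u _ => Finset.sum_nonneg fun _ _ => abs_nonneg _)
        refine h7.trans (le_of_eq ?_)
        rw [hTd, hn', sum_cu_mul (2 ^ (l + 1)) (by positivity : 0 < 2 ^ j)]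
    have hmn : 0 ≤ min θ (T * (((2 : ℝ) ^ j) ^ d)⁻¹) := le_min hθ (by positivity)
    rw [e1]
    have h8 := level j l h
    rw [← hl] at h8
    calc (∑ u ∈ cu d (2 ^ (l + 1)), Φ u * bb j h u) ^ 2
        ≤ (∑ u ∈ cu d (2 ^ (l + 1)), Φ u ^ 2) * ∑ u ∈ cu d (2 ^ (l + 1)), bb j h u ^ 2 :=
          Finset.sum_mul_sq_le_sq_mul_sq _ _ _
      _ ≤ (((2 : ℝ) ^ j) ^ d * min θ (T * (((2 : ℝ) ^ j) ^ d)⁻¹)) * ((2 : ℝ) ^ d * d ^ 2 *
            (4 ^ j * (((2 : ℝ) ^ j) ^ d)⁻¹ * gr d (2 ^ k) h)) :=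
          mul_le_mul e2 h8 (Finset.sum_nonneg fun _ _ => sq_nonneg _) (by positivity)
      _ = _ := by
          field_simp
  have e0 : ∑ x ∈ cu d (2 ^ k), φ x * (h x - av k h 0) =
      ∑ j ∈ Finset.range k, ∑ x ∈ cu d (2 ^ k), φ x * bb j h (dv x (2 ^ j)) := by
    rw [Finset.sum_comm]
    refine Finset.sum_congr rfl fun x hx => ?_
    rw [tele k h x hx, Finset.mul_sum]
  rw [e0]
  refine (lev_cs k J _).trans ?_
  have h6 : ∑ j ∈ Finset.range k,
      (∑ x ∈ cu d (2 ^ k), φ x * bb j h (dv x (2 ^ j))) ^ 2 / gw J j ≤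
      ((2 : ℝ) ^ d * d ^ 2 * gr d (2 ^ k) h) * ∑ j ∈ Finset.range k,
        min θ (T * (((2 : ℝ) ^ j) ^ d)⁻¹) * 4 ^ j / gw J j := by
    rw [Finset.mul_sum]
    refine Finset.sum_le_sum fun j hj => ?_
    have := gw_pos J j
    refine (div_le_div_of_nonneg_right (hlev j hj) this.le).trans (le_of_eq ?_)
    ring
  have h7 := lev_sum hd k J (fun j => min θ (T * (((2 : ℝ) ^ j) ^ d)⁻¹)) θ T hθ hT
    (fun j => le_min hθ (by positivity)) (fun j => min_le_left _ _) (fun j => min_le_right _ _)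
  have h8 : 0 ≤ (2 : ℝ) ^ d * d ^ 2 * gr d (2 ^ k) h := by positivity
  have h9 : 0 ≤ 4 ^ J * θ := by positivity
  calc 5 * ∑ j ∈ Finset.range k,
        (∑ x ∈ cu d (2 ^ k), φ x * bb j h (dv x (2 ^ j))) ^ 2 / gw J j
      ≤ 5 * (((2 : ℝ) ^ d * d ^ 2 * gr d (2 ^ k) h) *
          (4 ^ J * θ + 4 * (((1 / 2 : ℝ) ^ (d - 2)) ^ J * T))) := by
        gcongr
        exact h6.trans (mul_le_mul_of_nonneg_left h7 h8)
    _ ≤ 5 * (((2 : ℝ) ^ d * d ^ 2 * gr d (2 ^ k) h) *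
          (4 * (4 ^ J * θ + (((1 / 2 : ℝ) ^ (d - 2)) ^ J * T)))) := by
        gcongr
        linarith
    _ = _ := by
        unfold CS
        ring

end Pool.Agent.NAS
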